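import Pool.Agent.Run7.h718.TR.Iit
import Pool.Agent.Run7.h718.SA.Main

/-!
Points with coordinates in a ring with an endomorphism which satisfy a rational difference equation.
-/

set_option autoImplicit false
set_option linter.overlappingInstances false
set_option linter.unusedSectionVars false
set_option maxHeartbeats 1000000
set_option synthInstance.maxHeartbeats 400000

open MvPolynomial
open Pool.Agent.Run7.h718.NE (eval₂_scale)
open Pool.Agent.Run7.h718.SA (FinQuot)

namespace Pool.Agent.Run7.h718.TR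

section ring

variable {R : Type} [CommRing R] [IsDomain R] [Algebra ℂ R]

/-- the field of fractions -/
abbrev FR (R : Type) [CommRing R] [IsDomain R] : Type := FractionRing R

/-- the embedding in the field of fractions -/
noncomputable def im (g : R) : FR R := algebraMap R (FR R) g

theorem im_inj : Function.Injective (im : R → FR R) := IsFractionRing.injective R (FR R)

theorem im_ne {g : R} (h : g ≠ 0) : im g ≠ 0 := fun h0 =>
  h (im_inj (h0.trans (map_zero (algebraMap R (FR R))).symm))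

theorem im_mul (g h : R) : im (g * h) = im g * im h := map_mul (algebraMap R (FR R)) g h

theorem ch_inj {s : R →ₐ[ℂ] R} (hs : Function.Injective s) :
    Function.Injective ((IsScalarTower.toAlgHom ℂ R (FR R)).comp s) := fun _ _ h => hs (im_inj h)

/-- the extension of the endomorphism -/
noncomputable def se (s : R →ₐ[ℂ] R) (hs : Function.Injective s) : FR R →ₐ[ℂ] FR R :=
  IsFractionRing.liftAlgHom (K := FR R) (ch_inj hs)

theorem se_im {s : R →ₐ[ℂ] R} (hs : Function.Injective s) (g : R) : se s hs (im g) = im (s g) :=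
  IsFractionRing.lift_algebraMap (K := FR R) (ch_inj hs) g

/-- the value of the form in the products of the coordinates -/
noncomputable def peR {n m l : ℕ} (s : R →ₐ[ℂ] R) (fe : Fin (n + 1) → R) (cE : Fin l → R)
    (P : MvPolynomial (Fin m → Fin (n + 1)) (MvPolynomial (Fin l) ℂ)) : R :=
  eval₂ (aeval cE : MvPolynomial (Fin l) ℂ →ₐ[ℂ] R).toRingHom
    (fun t => ∏ k : Fin m, s^[k] (fe (t k))) P

theorem exists_field {n m l e : ℕ} {s : R →ₐ[ℂ] R} (hs : Function.Injective s)
    {fe : Fin (n + 1) → R} (hne : ∃ k0, fe k0 ≠ 0) {cE : Fin l → R} {R0 : MvPolynomial (Fin l) ℂ}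
    {Rr : Fin l → MvPolynomial (Fin l) ℂ}
    {P : Fin (n + 1) → MvPolynomial (Fin m → Fin (n + 1)) (MvPolynomial (Fin l) ℂ)}
    (hR0 : aeval cE R0 ≠ 0) (hR : ∀ i, s (cE i) * aeval cE R0 = aeval cE (Rr i))
    (hP : ∀ i, (P i).IsHomogeneous e) (hz : ∃ i, peR s fe cE (P i) ≠ 0)
    (heq : ∀ i j, s^[m] (fe i) * peR s fe cE (P j) = s^[m] (fe j) * peR s fe cE (P i)) :
    ∃ K : IntermediateField ℂ (FR R), Algebra.EssFiniteType ℂ K ∧ (∀ x ∈ K, se s hs x ∈ K) ∧
      ∀ i j, im (fe i) / im (fe j) ∈ K := by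
  obtain ⟨k0, hk0⟩ := hne
  obtain ⟨i0, hpe0⟩ := hz
  let φ : MvPolynomial (Fin l) ℂ →+* R := (aeval cE : MvPolynomial (Fin l) ℂ →ₐ[ℂ] R).toRingHom
  let cI : ℕ → R → R := fun k => s^[k]
  have hcI0 : ∀ k g, g ≠ 0 → cI k g ≠ 0 := by
    intro k g hg h0
    exact hg ((Function.Injective.iterate hs k) (h0.trans (by
      have : ∀ k, s^[k] (0 : R) = 0 := fun k => Function.iterate_fixed (map_zero s) k
      exact (this k).symm)))
  let segE : (Fin m → Fin (n + 1)) → R := fun t => ∏ k : Fin m, cI k (fe (t k))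
  let pe : Fin (n + 1) → R := fun i => eval₂ φ segE (P i)
  have hpe : ∀ i j, cI m (fe i) * pe j = cI m (fe j) * pe i := heq
  have hcmp0 : ∀ (k : ℕ), cI k (fe k0) ≠ 0 := fun k => hcI0 k _ hk0
  have hpk : pe k0 ≠ 0 := by
    intro h0
    have h1 := hpe k0 i0
    rw [h0, mul_zero] at h1
    exact mul_ne_zero (hcmp0 m) hpe0 h1
  let rk : ℕ → Fin (n + 1) → FR R := fun k i => im (cI k (fe i)) / im (cI k (fe k0))
  have hsg : ∀ k i, se s hs (rk k i) = rk (k + 1) i := by
    intro k i
    have h1 : ∀ g, cI (k + 1) g = s (cI k g) := fun g => Function.iterate_succ_apply' _ _ _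
    change se s hs (im (cI k (fe i)) / im (cI k (fe k0))) =
      im (cI (k + 1) (fe i)) / im (cI (k + 1) (fe k0))
    rw [map_div₀, se_im, se_im, h1, h1]
  let G : Set (FR R) := Set.range (fun i => im (cE i)) ∪
    Set.range fun p : Fin m × Fin (n + 1) => rk (p.1 : ℕ) p.2
  obtain ⟨K, hK⟩ : ∃ K : IntermediateField ℂ (FR R), K = IntermediateField.adjoin ℂ G := ⟨_, rfl⟩
  have hGK : ∀ x ∈ G, x ∈ K := by
    rw [hK]
    exact fun x hx => IntermediateField.subset_adjoin ℂ G hx
  have hcK : ∀ i, im (cE i) ∈ K := fun i => hGK _ (Or.inl ⟨i, rfl⟩)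
  have hrK : ∀ k, k < m → ∀ i, rk k i ∈ K := fun k hk i => hGK _ (Or.inr ⟨(⟨k, hk⟩, i), rfl⟩)
  have hφK : ∀ C : MvPolynomial (Fin l) ℂ, im (φ C) ∈ K := by
    intro C
    have h1 : im (φ C) = eval₂ (algebraMap ℂ (FR R)) (fun i => im (cE i)) C := by
      change (algebraMap R (FR R)) (eval₂ (algebraMap ℂ R) cE C) = _
      rw [eval₂_comp_left (algebraMap R (FR R)), ← IsScalarTower.algebraMap_eq]
      rfl
    rw [h1]
    exact eval₂_mem (s := K) (fun α _ => K.algebraMap_mem _) hcK
  -- the last term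
  have hlast : ∀ i, rk m i ∈ K := by
    have hval : ∀ i, ∃ a ∈ K, im (pe i) = (∏ k : Fin m, im (cI k (fe k0))) ^ e * a := by
      intro i
      refine ⟨eval₂ ((algebraMap R (FR R)).comp φ) (fun t : Fin m → Fin (n + 1) =>
        ∏ k : Fin m, rk (k : ℕ) (t k)) (P i),
        eval₂_mem (s := K) (fun α _ => hφK _) (fun t => prod_mem fun k _ => hrK _ k.2 _), ?_⟩
      have h1 : im (pe i) = eval₂ ((algebraMap R (FR R)).comp φ) (fun t => im (segE t)) (P i) :=
        eval₂_comp_left (algebraMap R (FR R)) φ segE (P i)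
      rw [h1, ← eval₂_scale _ (hP i)]
      congr 1
      funext t
      have h2 : im (segE t) = ∏ k : Fin m, im (cI k (fe (t k))) :=
        map_prod (algebraMap R (FR R)) _ _
      rw [h2, ← Finset.prod_mul_distrib]
      refine Finset.prod_congr rfl fun k _ => ?_
      have h3 := im_ne (hcmp0 k)
      change _ = im (cI k (fe k0)) * (im (cI k (fe (t k))) / im (cI k (fe k0)))
      field_simp
    intro i
    obtain ⟨a, ha, hai⟩ := hval i
    obtain ⟨b, hb, hbk⟩ := hval k0
    have h4 : (∏ k : Fin m, im (cI k (fe k0))) ^ e ≠ 0 :=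
      pow_ne_zero _ (Finset.prod_ne_zero_iff.2 fun k _ => im_ne (hcmp0 k))
    have h3 : rk m i = im (pe i) / im (pe k0) := by
      change im (cI m (fe i)) / im (cI m (fe k0)) = _
      rw [div_eq_div_iff (im_ne (hcmp0 m)) (im_ne hpk), ← im_mul, ← im_mul, hpe i k0]
      ring_nf
    rw [h3, hai, hbk, mul_div_mul_left _ _ h4]
    exact div_mem ha hb
  have hall : ∀ k, k ≤ m → ∀ i, rk k i ∈ K := by
    intro k hk i
    rcases Nat.lt_or_eq_of_le hk with h | h
    · exact hrK k h i
    · rw [h]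
      exact hlast i
  refine ⟨K, ?_, ?_, ?_⟩
  · rw [IntermediateField.essFiniteType_iff, hK]
    exact IntermediateField.fg_adjoin_of_finite ((Set.finite_range _).union (Set.finite_range _))
  · have hle : K ≤ K.comap (se s hs) := by
      conv_lhs => rw [hK]
      rw [IntermediateField.adjoin_le_iff]
      rintro _ (⟨i, rfl⟩ | ⟨⟨k, i⟩, rfl⟩)
      · change se s hs (im (cE i)) ∈ K
        have h1 : s (cE i) * φ R0 = φ (Rr i) := hR i
        have h2 : φ R0 ≠ 0 := hR0
        have h3 : se s hs (im (cE i)) = im (φ (Rr i)) / im (φ R0) := by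
          rw [se_im, ← h1, im_mul, mul_div_cancel_right₀ _ (im_ne h2)]
        rw [h3]
        exact div_mem (hφK _) (hφK _)
      · change se s hs (rk (k : ℕ) i) ∈ K
        rw [hsg]
        exact hall _ k.2 i
    exact fun x hx => hle hx
  · intro i j
    have h0 : ∀ i, rk 0 i = im (fe i) / im (fe k0) := fun i => rfl
    have h1 := im_ne hk0
    have h2 : im (fe i) / im (fe j) = rk 0 i / rk 0 j := by
      rw [h0, h0, div_div_div_cancel_right₀ h1]
    rw [h2]
    exact div_mem (hall 0 (Nat.zero_le m) i) (hall 0 (Nat.zero_le m) j)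

end ring

/-! ### elements of finite-dimensional stable spaces -/

section sf

variable {F : Type} [Field F] [Algebra ℂ F]

/-- The element `a` is in a finite-dimensional space which is stable under `σ`. -/
def SF (σ : F →ₐ[ℂ] F) (a : F) : Prop :=
  ∃ H : Submodule ℂ F, FiniteDimensional ℂ H ∧ (∀ h ∈ H, σ h ∈ H) ∧ a ∈ H

theorem SF.one (σ : F →ₐ[ℂ] F) : SF σ 1 := by
  refine ⟨ℂ ∙ (1 : F), inferInstance, fun h hh => ?_, Submodule.mem_span_singleton_self _⟩
  obtain ⟨c, rfl⟩ := Submodule.mem_span_singleton.1 hh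
  rw [map_smul, map_one]
  exact Submodule.mem_span_singleton.2 ⟨c, rfl⟩

theorem SF.mul {σ : F →ₐ[ℂ] F} {a b : F} (ha : SF σ a) (hb : SF σ b) : SF σ (a * b) := by
  obtain ⟨H1, h1, h2, h3⟩ := ha
  obtain ⟨H2, h4, h5, h6⟩ := hb
  refine ⟨H1 * H2, ?_, fun h hh => ?_, Submodule.mul_mem_mul h3 h6⟩
  · exact Module.Finite.iff_fg.2 ((Module.Finite.iff_fg.1 h1).mul (Module.Finite.iff_fg.1 h4))
  · induction hh using Submodule.mul_induction_on' with
    | mem_mul_mem x hx y hy =>
      rw [map_mul]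
      exact Submodule.mul_mem_mul (h2 x hx) (h5 y hy)
    | add x hx y hy ihx ihy =>
      rw [map_add]
      exact Submodule.add_mem _ ihx ihy

theorem SF.prod {σ : F →ₐ[ℂ] F} {ι : Type} (S : Finset ι) {a : ι → F} (h : ∀ i ∈ S, SF σ (a i)) :
    SF σ (∏ i ∈ S, a i) := by
  classical
  induction S using Finset.induction_on with
  | empty => simpa using SF.one σ
  | insert i S hi ih =>
    rw [Finset.prod_insert hi]
    exact (h i (Finset.mem_insert_self _ _)).mul (ih fun j hj => h j (Finset.mem_insert_of_mem hj))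

/-- linear recurrences with constant coefficients -/
theorem SF.poly {σ : F →ₐ[ℂ] F} {a : F} (ha : SF σ a) : ∃ P : Polynomial ℂ, P ≠ 0 ∧
    ∑ k ∈ Finset.range (P.natDegree + 1), P.coeff k • σ^[k] a = 0 := by
  obtain ⟨H, h1, h2, h3⟩ := ha
  let T : H →ₗ[ℂ] H := σ.toLinearMap.restrict h2
  have hT : ∀ (k : ℕ) (x : H), (((T ^ k) x : H) : F) = σ^[k] (x : F) := by
    intro k
    induction k with
    | zero => exact fun x => rfl
    | succ k ih =>
      intro x
      rw [pow_succ', Module.End.mul_apply, Function.iterate_succ_apply', ← ih x]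
      rfl
  refine ⟨minpoly ℂ T, minpoly.ne_zero (Algebra.IsIntegral.isIntegral T), ?_⟩
  have h4 := congrArg (fun A : Module.End ℂ H => ((A ⟨a, h3⟩ : H) : F)) (minpoly.aeval ℂ T)
  simp only [Polynomial.aeval_eq_sum_range] at h4
  have h5 : (((∑ i ∈ Finset.range ((minpoly ℂ T).natDegree + 1), (minpoly ℂ T).coeff i • T ^ i :
      Module.End ℂ H) ⟨a, h3⟩ : H) : F) =
      ∑ k ∈ Finset.range ((minpoly ℂ T).natDegree + 1), (minpoly ℂ T).coeff k • σ^[k] a := by
    rw [LinearMap.sum_apply, Submodule.coe_sum]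
    refine Finset.sum_congr rfl fun k _ => ?_
    rw [LinearMap.smul_apply, Submodule.coe_smul, hT]
  rw [← h5, h4]
  rfl

theorem FinQuot.shift {σ : F →ₐ[ℂ] F} {r : F} {k : ℕ} (h : FinQuot σ (σ^[k] r)) {k' : ℕ}
    (hk : k ≤ k') : FinQuot σ (σ^[k'] r) := by
  obtain ⟨H, a, h1, h2, h3, h4, h5⟩ := h
  obtain ⟨j, rfl⟩ := Nat.exists_eq_add_of_le' hk
  have hst : ∀ (j : ℕ) (x : F), x ∈ H → σ^[j] x ∈ H := by
    intro j
    induction j with
    | zero => exact fun x hx => hx
    | succ j ih =>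
      intro x hx
      rw [Function.iterate_succ_apply]
      exact ih _ (h2 x hx)
  have hmul : ∀ (j : ℕ) (x y : F), σ^[j] (x * y) = σ^[j] x * σ^[j] y := by
    intro j
    induction j with
    | zero => exact fun x y => rfl
    | succ j ih =>
      intro x y
      rw [Function.iterate_succ_apply, Function.iterate_succ_apply, Function.iterate_succ_apply,
        map_mul, ih]
  refine ⟨H, σ^[j] a, h1, h2, hst j a h3, ?_, ?_⟩
  · rw [Function.iterate_add_apply, ← hmul]
    exact hst j _ h4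
  · intro h0
    apply h5
    apply Function.Injective.iterate σ.toRingHom.injective j
    exact h0.trans (Function.iterate_fixed (map_zero σ) j).symm

end sf

end Pool.Agent.Run7.h718.TR
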