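import Pool.Agent.Run7.h718.NE.Thm

/-!
Varieties of general type: all rational functions are quotients of regular tensors.
-/

set_option autoImplicit false
set_option linter.unusedSectionVars false
set_option maxHeartbeats 1000000
set_option synthInstance.maxHeartbeats 400000

open FF MvPolynomial Pool.Agent.W602.GT
open Pool.Agent.Run7.h718.NE (RegTensor tenF tenF_reg tenF_ne tenF_smul)

namespace Pool.Agent.Run7.h718.TR

variable {K : Type} [Field K] [Algebra ℂ K] {w : ℕ}

/-- elements which are integral over the valuation ring -/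
theorem reg_of_rel (P : Place ℂ K) {m : ℕ} {B : ℕ → K} {Y : K} (hm : 0 < m)
    (hB : ∀ j < m, P.Reg (B j)) (h : Y ^ m + ∑ j ∈ Finset.range m, B j * Y ^ j = 0) :
    P.Reg Y := by
  by_contra hY
  have hY0 : Y ≠ 0 := fun h => hY (Or.inl h)
  have hord : P.ord Y < 0 := by
    by_contra h1
    push Not at h1
    exact hY (Or.inr h1)
  have hZ : Y⁻¹ ∈ P.O := P.mem_O.2 (Or.inr (by rw [P.ord_inv]; omega))
  apply hY
  have h1 : Y = -∑ j ∈ Finset.range m, B j * Y⁻¹ ^ (m - 1 - j) := by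
    have h2 : Y ^ (m - 1) ≠ 0 := pow_ne_zero _ hY0
    have h3 : (Y + ∑ j ∈ Finset.range m, B j * Y⁻¹ ^ (m - 1 - j)) * Y ^ (m - 1) = 0 := by
      rw [add_mul, Finset.sum_mul]
      have h4 : Y * Y ^ (m - 1) = Y ^ m := by
        rw [← pow_succ']
        congr 1
        omega
      rw [h4, ← h]
      congr 1
      refine Finset.sum_congr rfl fun j hj => ?_
      have hjm : j < m := Finset.mem_range.1 hj
      have h5 : Y ^ (m - 1) = Y ^ (m - 1 - j) * Y ^ j := by
        rw [← pow_add]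
        congr 1
        omega
      rw [h5, inv_pow]
      have h6 : Y ^ (m - 1 - j) ≠ 0 := pow_ne_zero _ hY0
      field_simp
    exact eq_neg_of_add_eq_zero_left ((mul_eq_zero.1 h3).resolve_right h2)
  rw [← P.mem_O, h1]
  refine neg_mem (sum_mem fun j hj => mul_mem ?_ (pow_mem hZ _))
  exact P.mem_O.2 (hB j (Finset.mem_range.1 hj))

/-- polynomials of bounded degree in the quotients -/
theorem reg_aeval (P : Place ℂ K) {r : Fin w → K} {u : K} (hu : P.Reg u)
    (hr : ∀ i, P.Reg (r i * u)) {d : ℕ} {G : MvPolynomial (Fin w) ℂ} (hG : G.totalDegree ≤ d) :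
    P.Reg (aeval r G * u ^ d) := by
  rw [← P.mem_O, aeval_def, eval₂_eq', Finset.sum_mul]
  refine sum_mem fun α hα => ?_
  have h1 : ∑ i, α i ≤ d := by
    have h2 := (le_totalDegree hα).trans hG
    rwa [Finsupp.sum_fintype _ _ (fun _ => rfl)] at h2
  have h3 : algebraMap ℂ K (coeff α G) * (∏ i, r i ^ α i) * u ^ d =
      algebraMap ℂ K (coeff α G) * (∏ i, (r i * u) ^ α i) * u ^ (d - ∑ i, α i) := by
    simp only [mul_pow, Finset.prod_mul_distrib, Finset.prod_pow_eq_pow_sum]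
    rw [← Nat.add_sub_cancel' h1, pow_add, Nat.add_sub_cancel_left]
    ring
  rw [h3]
  refine mul_mem (mul_mem (P.mem_O.2 (P.reg_const _)) (prod_mem fun i _ => pow_mem ?_ _))
    (pow_mem (P.mem_O.2 hu) _)
  exact P.mem_O.2 (hr i)

/-- On a variety of general type all rational functions are quotients of regular tensors. -/
theorem ratio_all [Algebra.EssFiniteType ℂ K] (hgt : GeneralType ℂ K w) (x : K) :
    ∃ (M : ℕ) (θ : MultilinearMap K (fun _ : Fin M => Derivation ℂ K K) K), θ ≠ 0 ∧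
      RegTensor w θ ∧ RegTensor w (x • θ) := by
  classical
  obtain ⟨hw, N, hN, ω, hω, hreg, D0, hD0, hind⟩ := hgt
  obtain ⟨r, hr⟩ : ∃ r : Fin w → K, r = fun i : Fin w => ω i.succ D0 / ω 0 D0 := ⟨_, rfl⟩
  rw [← hr] at hind
  obtain ⟨z, E, hz, hE⟩ := Pool.Agent.Y172.exists_crd hw (k := ℂ) (K := K)
  have hpl : ∀ j D, ω j D = (Matrix.of fun i l => D i (z l)).det ^ N * ω j E := fun j D =>
    congrFun (ND.eq_frm hz hE (hω j)) D
  have hω0 : ω 0 E ≠ 0 := by
    intro h0
    apply hD0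
    rw [hpl, h0, mul_zero]
  have hdet : (Matrix.of fun i l => D0 i (z l)).det ^ N ≠ 0 := by
    intro h0
    apply hD0
    rw [hpl, h0, zero_mul]
  have hprop : ∀ i D, ω (Fin.succ i) D = r i * ω 0 D := by
    intro i D
    have h1 : r i = ω i.succ E / ω 0 E := by
      rw [hr]
      change ω i.succ D0 / ω 0 D0 = _
      rw [hpl i.succ D0, hpl 0 D0, mul_div_mul_left _ _ hdet]
    rw [h1, hpl i.succ D, hpl 0 D]
    field_simp
  have htb : IsTranscendenceBasis ℂ r := by
    refine hind.isTranscendenceBasis_of_trdeg_le_of_finite ?_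
    rw [hw]
    simp
  have hxa : IsAlgebraic (Algebra.adjoin ℂ (Set.range r)) x := htb.isAlgebraic.isAlgebraic x
  obtain ⟨p, hp0, hp⟩ := hxa
  have hG : ∀ j, ∃ G : MvPolynomial (Fin w) ℂ, aeval r G = ((p.coeff j : _) : K) := by
    intro j
    have h1 : ((p.coeff j : Algebra.adjoin ℂ (Set.range r)) : K) ∈
        (aeval r : MvPolynomial (Fin w) ℂ →ₐ[ℂ] K).range :=
      (Algebra.adjoin_range_eq_range_aeval ℂ r).le (p.coeff j).2
    exact h1
  choose G hG using hG
  obtain ⟨m, hm⟩ : ∃ m, m = p.natDegree := ⟨_, rfl⟩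
  obtain ⟨a, ha⟩ : ∃ a : ℕ → K, ∀ j, a j = ((p.coeff j : _) : K) := ⟨_, fun _ => rfl⟩
  have ham : a m ≠ 0 := by
    rw [ha, hm]
    intro h0
    exact hp0 (Polynomial.leadingCoeff_eq_zero.1 (Subtype.ext h0))
  have hsum : ∑ j ∈ Finset.range (m + 1), a j * x ^ j = 0 := by
    rw [Polynomial.aeval_eq_sum_range] at hp
    rw [← hp, hm]
    refine Finset.sum_congr rfl fun j _ => ?_
    rw [ha]
    rfl
  have hm0 : 0 < m := by
    rw [Nat.pos_iff_ne_zero]
    intro h0
    rw [h0, zero_add, Finset.sum_range_one, pow_zero, mul_one] at hsum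
    rw [h0] at ham
    exact ham hsum
  obtain ⟨d, hd⟩ : ∃ d, d = (Finset.range (m + 1)).sup fun j => (G j).totalDegree := ⟨_, rfl⟩
  obtain ⟨Ω, hΩ⟩ : ∃ Ω : K → (Fin w → Derivation ℂ K K) → K, ∀ g D, Ω g D = g * ω 0 D ^ d :=
    ⟨_, fun _ _ => rfl⟩
  have hΩp : ∀ g, IsPluri (N * d) (Ω g) := by
    intro g A D
    rw [hΩ, hΩ, hω 0 A D, mul_pow, ← pow_mul]
    ring
  have hB : ∀ P : Place ℂ K, Divisorial w P → ∀ D : Fin w → Derivation ℂ K K,
      (∀ i, DerReg P (D i)) → ∀ j ≤ m, P.Reg (a j * ω 0 D ^ d) := by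
    intro P hP D hD j hj
    rw [ha, ← hG]
    refine reg_aeval P (hreg P hP 0 D hD) (fun i => ?_) ?_
    · rw [← hprop]
      exact hreg P hP i.succ D hD
    · rw [hd]
      exact Finset.le_sup (f := fun j => (G j).totalDegree) (Finset.mem_range.2 (by omega))
  have hreg1 : ∀ P : Place ℂ K, Divisorial w P → RegAt P (Ω (a m)) := by
    intro P hP D hD
    rw [hΩ]
    exact hB P hP D hD m le_rfl
  have hreg2 : ∀ P : Place ℂ K, Divisorial w P → RegAt P (Ω (x * a m)) := by
    intro P hP D hD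
    rw [hΩ]
    have hBj := hB P hP D hD
    obtain ⟨v, hv⟩ : ∃ v, v = ω 0 D ^ d := ⟨_, rfl⟩
    rw [← hv] at hBj ⊢
    refine reg_of_rel P (m := m) (B := fun j => a j * v * (a m * v) ^ (m - 1 - j)) hm0
      (fun j hj => ?_) ?_
    · rw [← P.mem_O]
      exact mul_mem (P.mem_O.2 (hBj j hj.le)) (pow_mem (P.mem_O.2 (hBj m le_rfl)) _)
    · have h1 : (x * a m * v) ^ m = a m * x ^ m * (a m ^ (m - 1) * v ^ m) := by
        obtain ⟨m', rfl⟩ : ∃ m', m = m' + 1 := ⟨m - 1, by omega⟩
        rw [Nat.add_sub_cancel, mul_pow, mul_pow, pow_succ (a (m' + 1)) m']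
        ring
      have h2 : ∀ j ∈ Finset.range m, a j * v * (a m * v) ^ (m - 1 - j) * (x * a m * v) ^ j =
          a j * x ^ j * (a m ^ (m - 1) * v ^ m) := by
        intro j hj
        have hjm : j < m := Finset.mem_range.1 hj
        have e1 : a m ^ (m - 1) = a m ^ (m - 1 - j) * a m ^ j := by
          rw [← pow_add]
          congr 1
          omega
        have e2 : v ^ m = v * v ^ (m - 1 - j) * v ^ j := by
          rw [← pow_succ', ← pow_add]
          congr 1
          omega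
        rw [e1, e2, mul_pow, mul_pow, mul_pow]
        ring
      rw [h1, Finset.sum_congr rfl h2, ← Finset.sum_mul, ← add_mul, add_comm,
        ← Finset.sum_range_succ, hsum, zero_mul]
  refine ⟨_, tenF z (N * d) (Ω (a m) E), tenF_ne hE _ ?_, tenF_reg hw hz hE (hΩp _) hreg1, ?_⟩
  · rw [hΩ]
    exact mul_ne_zero ham (pow_ne_zero _ hω0)
  · rw [tenF_smul]
    have h1 : x * Ω (a m) E = Ω (x * a m) E := by
      rw [hΩ, hΩ]
      ring
    rw [h1]
    exact tenF_reg hw hz hE (hΩp _) hreg2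

end Pool.Agent.Run7.h718.TR
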