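import Pool.Agent.Run7.h718.TR.Eq

/-!
Points of varieties of general type which satisfy a rational difference equation: up to a shift, the
homogeneous coordinates can be chosen in finite-dimensional stable spaces.
-/

set_option autoImplicit false
set_option linter.overlappingInstances false
set_option linter.unusedSectionVars false
set_option maxHeartbeats 1000000
set_option synthInstance.maxHeartbeats 400000

open MvPolynomial FF Pool.Agent.W602.GT
open Pool.Agent.Run7.h718.SA (FinQuot)
open Pool.Agent.Run7.h718.NE (RegTensor)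

namespace Pool.Agent.Run7.h718.TR

variable {R : Type} [CommRing R] [IsDomain R] [Algebra ℂ R]

theorem exists_coords {n m l e w : ℕ} {s : R →ₐ[ℂ] R} (hs : Function.Injective s)
    {fe : Fin (n + 1) → R} {cE : Fin l → R} {R0 : MvPolynomial (Fin l) ℂ}
    {Rr : Fin l → MvPolynomial (Fin l) ℂ}
    {P : Fin (n + 1) → MvPolynomial (Fin m → Fin (n + 1)) (MvPolynomial (Fin l) ℂ)}
    (hR0 : aeval cE R0 ≠ 0) (hR : ∀ i, s (cE i) * aeval cE R0 = aeval cE (Rr i))
    (hP : ∀ i, (P i).IsHomogeneous e) (hz : ∃ i, peR s fe cE (P i) ≠ 0)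
    (heq : ∀ i j, s^[m] (fe i) * peR s fe cE (P j) = s^[m] (fe j) * peR s fe cE (P i))
    {K : Type} [Field K] [Algebra ℂ K] [Algebra.EssFiniteType ℂ K] {y : Fin (n + 1) → K}
    (hy : coords ℂ y = ⊤) (ι : K →ₐ[ℂ] FR R)
    (hι : ∀ i j, y j ≠ 0 → ι (y i / y j) = im (fe i) / im (fe j) ∧ fe j ≠ 0)
    (hgt : GeneralType ℂ K w) {c : Fin (n + 1)} (hc : y c ≠ 0) :
    ∃ (k : ℕ) (x : Fin (n + 1) → FR R), x c ≠ 0 ∧ (∀ j, SF (se s hs) (x j)) ∧
      ∀ j, x j * im (s^[k] (fe c)) = x c * im (s^[k] (fe j)) := by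
  classical
  have hw := hgt.1
  obtain ⟨K1, hess, hst, hmem⟩ := exists_field hs ⟨c, (hι c c hc).2⟩ hR0 hR hP hz heq
  have hιF : ∀ r, ι r ∈ K1 := by
    have hle : (⊤ : IntermediateField ℂ K) ≤ K1.comap ι := by
      rw [← hy]
      unfold coords
      rw [IntermediateField.adjoin_le_iff]
      rintro _ ⟨i, j, hj, rfl⟩
      change ι (y i / y j) ∈ K1
      rw [(hι i j hj).1]
      exact hmem i j
    exact fun r => hle (IntermediateField.mem_top (x := r))
  let σ : K1 →ₐ[ℂ] K1 :=
    { toFun := fun r => ⟨se s hs r, hst r r.2⟩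
      map_one' := Subtype.ext (map_one (se s hs))
      map_mul' := fun a b => Subtype.ext (map_mul (se s hs) (a : FR R) (b : FR R))
      map_zero' := Subtype.ext (map_zero (se s hs))
      map_add' := fun a b => Subtype.ext (map_add (se s hs) (a : FR R) (b : FR R))
      commutes' := fun c => Subtype.ext ((se s hs).commutes c) }
  let τ : K →ₐ[ℂ] K1 :=
    { toFun := fun r => ⟨ι r, hιF r⟩
      map_one' := Subtype.ext (map_one ι)
      map_mul' := fun a b => Subtype.ext (map_mul ι a b)
      map_zero' := Subtype.ext (map_zero ι)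
      map_add' := fun a b => Subtype.ext (map_add ι a b)
      commutes' := fun c => Subtype.ext (ι.commutes c) }
  have hσc : ∀ (k : ℕ) (r : K1), ((σ^[k] r : K1) : FR R) = (se s hs)^[k] (r : FR R) := by
    intro k
    induction k with
    | zero => exact fun r => rfl
    | succ k ih =>
      intro r
      rw [Function.iterate_succ_apply', Function.iterate_succ_apply', ← ih r]
      rfl
  have hseim : ∀ (k : ℕ) (g : R), (se s hs)^[k] (im g) = im (s^[k] g) := by
    intro k
    induction k with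
    | zero => exact fun r => rfl
    | succ k ih =>
      intro r
      rw [Function.iterate_succ_apply', Function.iterate_succ_apply', ih, se_im]
  have hsediv : ∀ (k : ℕ) (a b : FR R), (se s hs)^[k] (a / b) = (se s hs)^[k] a / (se s hs)^[k] b := by
    intro k
    induction k with
    | zero => exact fun a b => rfl
    | succ k ih =>
      intro a b
      rw [Function.iterate_succ_apply', Function.iterate_succ_apply', Function.iterate_succ_apply',
        ih, map_div₀]
  have hfin : ∀ j, ∃ k, FinQuot σ (σ^[k] (τ (y j / y c))) := by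
    intro j
    obtain ⟨M, θ, h0, h1, h2⟩ := ratio_all hgt (y j / y c)
    exact SA.main_abs hw σ τ h1 h0 h2
  choose kk hkk using hfin
  obtain ⟨k, hk⟩ : ∃ k, k = Finset.univ.sup kk := ⟨_, rfl⟩
  have hfin2 : ∀ j, FinQuot σ (σ^[k] (τ (y j / y c))) := fun j =>
    FinQuot.shift (hkk j) (by rw [hk]; exact Finset.le_sup (Finset.mem_univ j))
  choose H a hH1 hH2 hH3 hH4 hH5 using hfin2
  have hSF : ∀ j (b : K1), b ∈ H j → SF (se s hs) (b : FR R) := by
    intro j b hb
    have := hH1 j
    refine ⟨(H j).map K1.val.toLinearMap, inferInstance, ?_, ⟨b, hb, rfl⟩⟩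
    rintro _ ⟨h, hh, rfl⟩
    exact ⟨σ h, hH2 j h hh, rfl⟩
  have hfc : ∀ k, s^[k] (fe c) ≠ 0 := by
    intro k h0
    apply (hι c c hc).2
    apply Function.Injective.iterate hs k
    exact h0.trans (Function.iterate_fixed (map_zero s) k).symm
  have hρ : ∀ j, ((σ^[k] (τ (y j / y c)) : K1) : FR R) = im (s^[k] (fe j)) / im (s^[k] (fe c)) := by
    intro j
    rw [hσc]
    change (se s hs)^[k] (ι (y j / y c)) = _
    rw [(hι j c hc).1, hsediv, hseim, hseim]
  refine ⟨k, fun j => ((σ^[k] (τ (y j / y c)) * a j : K1) : FR R) *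
    ∏ i ∈ Finset.univ.erase j, (a i : FR R), ?_, fun j => ?_, fun j => ?_⟩
  · refine mul_ne_zero ?_ (Finset.prod_ne_zero_iff.2 fun i _ h0 => hH5 i (Subtype.ext h0))
    rw [MulMemClass.coe_mul, hρ]
    refine mul_ne_zero (div_ne_zero (im_ne (hfc k)) (im_ne (hfc k))) fun h0 => hH5 c (Subtype.ext h0)
  · refine (hSF j _ (hH4 j)).mul (SF.prod _ fun i _ => hSF i _ (hH3 i))
  · have h1 : ∀ j, ((σ^[k] (τ (y j / y c)) * a j : K1) : FR R) *
        ∏ i ∈ Finset.univ.erase j, (a i : FR R) =
        im (s^[k] (fe j)) / im (s^[k] (fe c)) * ∏ i, (a i : FR R) := by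
      intro j
      rw [MulMemClass.coe_mul, hρ, mul_assoc,
        Finset.mul_prod_erase Finset.univ (fun i => (a i : FR R)) (Finset.mem_univ j)]
    beta_reduce
    rw [h1, h1]
    have h2 := im_ne (hfc k)
    field_simp

end Pool.Agent.Run7.h718.TR
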